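import Mathlib

/-!
# A maximiser with linearly independent components
-/

namespace Pool.Agent.H60.PF

open scoped BigOperators

/-- Let `Good` be a set of b-divisors; `X w` are the coefficients of `w` at the prime divisors of `X`. -/
structure Move (r : ℕ) (Pr W : Type) where
  X : W → Pr →₀ ℝ
  cl : Pr → Fin r → ℝ
  Good : W → Prop
  /-- the possible components on `X` -/
  S : Set Pr
  nonneg : ∀ w, Good w → ∀ G, 0 ≤ X w G
  supp : ∀ w, Good w → ∀ G, X w G ≠ 0 → G ∈ S
  move : ∀ w, Good w → ∀ n : Pr →₀ ℝ, (n.sum fun G t => t • cl G) = 0 → (∀ G, 0 ≤ X w G + n G) →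
    ∃ w', Good w' ∧ X w' = X w + n
  most : ∀ (S₀ : Finset Pr) (c : Pr → ℝ), (∀ G, 0 ≤ c G) → ∃ w, Good w ∧ (∀ G, G ∉ S₀ → X w G = 0) ∧
    ∀ w', Good w' → (∀ G, G ∉ S₀ → X w' G = 0) → ∑ G ∈ S₀, c G * X w' G ≤ ∑ G ∈ S₀, c G * X w G

namespace Move

variable {r : ℕ} {Pr W : Type} (M : Move r Pr W)

/-- the class on `X` -/
noncomputable def cx (w : W) : Fin r → ℝ := (M.X w).sum fun G t => t • M.cl G

/-- `w` can be moved to a b-divisor with components on `X` in a finite set. -/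
theorem into (S₀ : Finset Pr)
    (hS₀ : ∀ F ∈ M.S, ∃ F₀ ∈ S₀, ∃ c : ℝ, 0 < c ∧ M.cl F = c • M.cl F₀) {w : W} (hw : M.Good w) :
    ∃ w', M.Good w' ∧ (∀ G, G ∉ S₀ → M.X w' G = 0) ∧ M.cx w' = M.cx w := by
  classical
  choose! F₀ hF₀ c hc hcl using hS₀
  let m : Pr →₀ ℝ := ∑ G ∈ (M.X w).support, Finsupp.single (F₀ G) (M.X w G * c G)
  have hm0 : ∀ G, 0 ≤ m G := by
    intro G
    simp only [m, Finsupp.finsetSum_apply]
    refine Finset.sum_nonneg fun G' hG' => ?_
    rw [Finsupp.single_apply]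
    split_ifs
    · exact mul_nonneg (M.nonneg w hw _) (hc _ (M.supp w hw _ (Finsupp.mem_support_iff.1 hG'))).le
    · exact le_rfl
  have hmS : ∀ G, G ∉ S₀ → m G = 0 := by
    intro G hG
    simp only [m, Finsupp.finsetSum_apply]
    refine Finset.sum_eq_zero fun G' hG' => ?_
    rw [Finsupp.single_apply, if_neg]
    rintro rfl
    exact hG (hF₀ _ (M.supp w hw _ (Finsupp.mem_support_iff.1 hG')))
  have hadd : ∀ p q : Pr →₀ ℝ, ((p + q).sum fun G t => t • M.cl G) =
      (p.sum fun G t => t • M.cl G) + q.sum fun G t => t • M.cl G := fun p q =>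
    Finsupp.sum_add_index' (fun _ => zero_smul _ _) fun _ _ _ => add_smul _ _ _
  let Sm : (Pr →₀ ℝ) →+ (Fin r → ℝ) := ⟨⟨fun p => p.sum fun G t => t • M.cl G, by simp⟩, hadd⟩
  have hmcl : Sm m = M.cx w := by
    rw [map_sum]
    show ∑ G ∈ (M.X w).support, (Finsupp.single (F₀ G) (M.X w G * c G)).sum (fun G t => t • M.cl G) = _
    refine Finset.sum_congr rfl fun G hG => ?_
    rw [Finsupp.sum_single_index (h := fun G t => t • M.cl G) (zero_smul _ _), mul_smul,
      ← hcl G (M.supp w hw _ (Finsupp.mem_support_iff.1 hG))]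
  obtain ⟨w', hw', e⟩ := M.move w hw (m - M.X w) (by
    show Sm (m - M.X w) = 0
    rw [map_sub, hmcl]
    exact sub_self _) (fun G => by
      rw [Finsupp.sub_apply]
      have := hm0 G
      linarith)
  rw [add_sub_cancel] at e
  exact ⟨w', hw', fun G hG => by rw [e]; exact hmS G hG, by rw [← hmcl]; unfold cx; rw [e]; rfl⟩

/-- **Theorem.** Suppose that up to positive multiples there are only finitely many classes of possible
components. There is a b-divisor for which the linear function `b` of its class is maximal, and the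
components of which on `X` are linearly independent. -/
theorem start (b : (Fin r → ℝ) →ₗ[ℝ] ℝ) (hb : ∀ G, 0 ≤ b (M.cl G))
    (hfin : ∃ S₀ : Set Pr, S₀.Finite ∧ ∀ F ∈ M.S, ∃ F₀ ∈ S₀, ∃ c : ℝ, 0 < c ∧ M.cl F = c • M.cl F₀) :
    ∃ w, M.Good w ∧ (∀ w', M.Good w' → b (M.cx w') ≤ b (M.cx w)) ∧
      ∀ n : Pr →₀ ℝ, (∀ G, n G ≠ 0 → M.X w G ≠ 0) → (n.sum fun G t => t • M.cl G) = 0 → n = 0 := by
  classical
  have hadd : ∀ p q : Pr →₀ ℝ, ((p + q).sum fun G t => t • M.cl G) =
      (p.sum fun G t => t • M.cl G) + q.sum fun G t => t • M.cl G := fun p q =>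
    Finsupp.sum_add_index' (fun _ => zero_smul _ _) fun _ _ _ => add_smul _ _ _
  have hsmul : ∀ (s : ℝ) (p : Pr →₀ ℝ), ((s • p).sum fun G t => t • M.cl G) =
      s • p.sum fun G t => t • M.cl G := by
    intro s p
    rw [Finsupp.sum_smul_index (h := fun G t => t • M.cl G) (fun _ => zero_smul _ _), Finsupp.smul_sum]
    exact Finset.sum_congr rfl fun G _ => mul_smul _ _ _
  -- a maximiser
  have h1 : ∃ w, M.Good w ∧ ∀ w', M.Good w' → b (M.cx w') ≤ b (M.cx w) := by
    obtain ⟨S₀, hS₀, hcl⟩ := hfin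
    obtain ⟨w, hw, hwS, hmax⟩ := M.most hS₀.toFinset (fun G => b (M.cl G)) hb
    have hval : ∀ w', (∀ G, G ∉ hS₀.toFinset → M.X w' G = 0) →
        b (M.cx w') = ∑ G ∈ hS₀.toFinset, b (M.cl G) * M.X w' G := by
      intro w' h2
      unfold cx
      have h3 : (M.X w').support ⊆ hS₀.toFinset := fun G hG => by
        by_contra hn
        exact (Finsupp.mem_support_iff.1 hG) (h2 G hn)
      rw [Finsupp.sum_of_support_subset _ h3 (fun G t => t • M.cl G) (fun _ _ => zero_smul _ _), map_sum]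
      exact Finset.sum_congr rfl fun G _ => by rw [map_smul, smul_eq_mul, mul_comm]
    refine ⟨w, hw, fun w' hw' => ?_⟩
    obtain ⟨w'', h3, h4, h5⟩ := M.into hS₀.toFinset (fun F hF => by
      obtain ⟨F₀, h6, h7⟩ := hcl F hF
      exact ⟨F₀, (Set.Finite.mem_toFinset hS₀).2 h6, h7⟩) hw'
    rw [← h5, hval w hwS, hval w'' h4]
    exact hmax w'' h3 h4
  -- with the smallest number of components
  have h2 : ∃ k : ℕ, ∃ w, M.Good w ∧ (∀ w', M.Good w' → b (M.cx w') ≤ b (M.cx w)) ∧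
      (M.X w).support.card = k := by
    obtain ⟨w, hw, h3⟩ := h1
    exact ⟨_, w, hw, h3, rfl⟩
  obtain ⟨w, hw, hmax, hk⟩ := Nat.find_spec h2
  refine ⟨w, hw, hmax, fun n hn hsum => ?_⟩
  by_contra hne
  -- one coefficient is negative
  obtain ⟨n, hn, hsum, G₁, hG₁⟩ : ∃ n : Pr →₀ ℝ, (∀ G, n G ≠ 0 → M.X w G ≠ 0) ∧
      (n.sum fun G t => t • M.cl G) = 0 ∧ ∃ G, n G < 0 := by
    obtain ⟨G, hG⟩ := Finsupp.ne_iff.1 hne
    rw [Finsupp.zero_apply] at hG
    rcases lt_or_gt_of_ne hG with h | h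
    · exact ⟨n, hn, hsum, G, h⟩
    · refine ⟨(-1 : ℝ) • n, fun G' hG' => hn G' ?_, ?_, G, ?_⟩
      · intro h0
        rw [Finsupp.smul_apply, h0, smul_zero] at hG'
        exact hG' rfl
      · rw [hsmul, hsum, smul_zero]
      · rw [Finsupp.smul_apply, smul_eq_mul]
        linarith
  -- the first coefficient which becomes zero
  let T := n.support.filter fun G => n G < 0
  have hT : T.Nonempty := ⟨G₁, Finset.mem_filter.2 ⟨Finsupp.mem_support_iff.2 hG₁.ne, hG₁⟩⟩
  obtain ⟨G₂, hG₂, hmin⟩ := T.exists_min_image (fun G => M.X w G / -n G) hT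
  have hG₂n : n G₂ < 0 := (Finset.mem_filter.1 hG₂).2
  set s := M.X w G₂ / -n G₂ with hs
  have hs0 : 0 ≤ s := div_nonneg (M.nonneg w hw _) (by linarith)
  have hge : ∀ G, 0 ≤ M.X w G + (s • n) G := by
    intro G
    rw [Finsupp.smul_apply, smul_eq_mul]
    rcases lt_or_ge (n G) 0 with h | h
    · have h3 := hmin G (Finset.mem_filter.2 ⟨Finsupp.mem_support_iff.2 h.ne, h⟩)
      have h4 : s * -n G ≤ M.X w G := by
        rw [← le_div_iff₀ (by linarith)]
        exact h3
      linarith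
    · exact add_nonneg (M.nonneg w hw _) (mul_nonneg hs0 h)
  obtain ⟨w', hw', e⟩ := M.move w hw (s • n) (by rw [hsmul, hsum, smul_zero]) hge
  have hcx : M.cx w' = M.cx w := by
    unfold cx
    rw [e, hadd, hsmul, hsum, smul_zero, add_zero]
  have hlt : (M.X w').support.card < (M.X w).support.card := by
    refine Finset.card_lt_card ?_
    rw [Finset.ssubset_iff_of_subset]
    · refine ⟨G₂, Finsupp.mem_support_iff.2 (hn _ hG₂n.ne), ?_⟩
      rw [Finsupp.mem_support_iff, e, Finsupp.add_apply, Finsupp.smul_apply, smul_eq_mul, hs, not_not]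
      have : n G₂ ≠ 0 := hG₂n.ne
      field_simp
      ring
    · intro G hG
      rw [Finsupp.mem_support_iff, e, Finsupp.add_apply, Finsupp.smul_apply] at hG
      rw [Finsupp.mem_support_iff]
      intro h0
      have h3 : n G = 0 := by
        by_contra h4
        exact hn G h4 h0
      rw [h0, h3, smul_zero, add_zero] at hG
      exact hG rfl
  exact absurd (Nat.find_min' h2 ⟨w', hw', by rw [hcx]; exact hmax, rfl⟩) (by rw [← hk]; omega)

end Move

end Pool.Agent.H60.PF
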