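import Pool.Agent.H15.XF.BCl
import Pool.Agent.H76.F4.Var

/-!
# MP_5ee2d0_ag: pencils of divisors which are orthogonal to the square of a nef class

`X` is a smooth projective fourfold with `K_X ~ 0` and `H^1(X, O_X) = 0`, and `L` is nef.
-/

namespace Pool.Agent.H60.PF

open Pool.Agent.H76.F4 Pool.Agent.H15.XF

variable {r : ℕ}

/-- The field of the rational functions on `X` is `K`. -/
structure Orders (X : Var r) (K : Type) [Field K] [Algebra ℂ K] where
  /-- The order of a function along a prime divisor, negative at the poles. It is a valuation; for the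
  function `0` it is set to be `0`. -/
  ord : X.Pr → K → ℤ
  zero : ∀ F, ord F 0 = 0
  val : ∀ F f g, f * g ≠ 0 → ord F (f * g) = ord F f + ord F g ∧
    (f + g ≠ 0 → min (ord F f) (ord F g) ≤ ord F (f + g))
  finite : ∀ f, {F | ord F f ≠ 0}.Finite
  /-- the functions `f` with `div f + D ≥ 0` are the sections of `O_X(D)` -/
  sect : ∀ (D : X.Pr →₀ ℕ) (k : ℕ) (f : Fin k → K), LinearIndependent ℂ f →
    (∀ i F, 0 ≤ ord F (f i) + D F) → k ≤ X.h 0 (X.line D)
  /-- linear equivalence -/
  equiv : ∀ D D' : X.Pr →₀ ℕ, X.line D = X.line D' ↔ ∃ f, ∀ F, (D F : ℤ) = D' F + ord F f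
  /-- If `f` is not constant then the functions which are algebraic over `ℂ(f)` are the function field of a
  smooth projective curve. It is rational, because `H^1(X, O_X) = 0`, so this field is `ℂ(g)`; and almost
  all the fibres of the rational map `g` are irreducible. -/
  curve : ∀ f : K, (∀ c, algebraMap ℂ K c ≠ f) → ∃ g : K,
    (∀ u, ¬ AlgebraicIndependent ℂ ![f, u] → u ∈ IntermediateField.adjoin ℂ {g}) ∧
    {t | ¬ ∃ F, ∀ G, G ≠ F → ord G (g - algebraMap ℂ K t) ≤ 0}.Finite

/-- the rational functions on `X` -/
structure Functions (X : Var r) where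
  K : Type
  [fld : Field K]
  [alg : Algebra ℂ K]
  fn : Orders X K

/-- The prime divisors and classes of `X` as a variety and for the b-classes. -/
structure Link (X : Var r) (B : BCl r) where
  /-- the prime divisors of `X` -/
  e : X.Pr ≃ {E // B.X E}
  cl_e : ∀ G, B.cl (e G) = X.num.cl G
  /-- nef line bundles on `X` -/
  nef : ∀ x, X.Nef x → B.Nef (B.pb (X.rl x))

/-- the divisor `D` has Kodaira dimension at least two: the sections of a multiple contain three
algebraically independent ones -/
def Kod (X : Var r) (D : X.Pr →₀ ℕ) : Prop :=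
  ∃ k : ℕ, 0 < k ∧ ∀ m : ℕ, (m + 1) * (m + 2) ≤ 2 * X.h 0 ((m * k) • X.line D)

/-- Let `D` be a divisor of Kodaira dimension at least two, `W → X` a resolution of the base locus of a
multiple `m D` whose sections define a rational map with an image of dimension at least two, `b` the
free part of the pull back of `m D` to `W`. So the pull back of `m D` is the sum of `b` and of an effective
divisor. -/
structure Plane (X : Var r) (B : BCl r) (L : X.P) (D : X.Pr →₀ ℕ) where
  m : ℕ
  b : B.V
  good : Good B ((m : ℝ) • X.rl (X.line D)) b
  /-- the image has dimension at least two -/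
  pos : 0 < B.I b b (B.pb B.A) (B.pb B.A)
  /-- Suppose that `b^3.A = 0`. Then the image is a surface, and `b^2` is a positive multiple of the class of
  the general fibre `F` of the map from `W` to it. If moreover `b^2.L` is numerically trivial then the nef
  class `L` is numerically trivial on `F`. So, after a modification of `W` and with a smooth projective
  surface `Z`, `W → Z` with connected fibres, the pull back of `L` is numerically equivalent to the pull
  back of a nef divisor `M` of `Z` with rational coefficients (Lehmann 2014, On Eckl's pseudo-effective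
  reduction map; for nef divisors see also Bauer and others 2002, A reduction map for nef line bundles),
  and `L^2.A^2` is a positive multiple of `M^2`. If it is not zero then `M` is big, and multiples of `M` and
  `L` are linearly equivalent on `W` since `H^1(W, O_W) = 0`. -/
  fib : B.I b b b (B.pb B.A) = 0 → (∀ x, B.I (B.pb (X.rl L)) x b b = 0) →
    B.I (B.pb (X.rl L)) (B.pb (X.rl L)) (B.pb B.A) (B.pb B.A) ≠ 0 → ∃ k : ℕ, 0 < k ∧ X.h 0 (k • L) ≠ 0

/-- The rational functions on `X`, and the divisors of Kodaira dimension at least two, for a nef line bundle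
`L`. -/
structure Pencils (X : Var r) (B : BCl r) (L : X.P) where
  fns : Functions X
  plane : ∀ D, Kod X D → Plane X B L D

namespace Link

variable {X : Var r} {B : BCl r} (K : Link X B)

/-- the prime divisor `G` of `X` for the b-classes -/
def pr (G : X.Pr) : B.D := K.e G

theorem pr_X (G : X.Pr) : B.X (K.pr G) := (K.e G).2

theorem pr_onto (E : B.D) (h : B.X E) : ∃ G, K.pr G = E :=
  ⟨K.e.symm ⟨E, h⟩, by rw [pr, K.e.apply_symm_apply]⟩

theorem pr_inj (G G' : X.Pr) (h : K.pr G = K.pr G') : G = G' := K.e.injective (Subtype.ext h)

theorem cl (G : X.Pr) : B.cl (K.pr G) = X.num.cl G := K.cl_e G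

end Link

end Pool.Agent.H60.PF
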