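import Pool.Agent.H60.PF.Claim
import Pool.Agent.H72.FB4.End

/-!
# Nef classes of numerical dimension two: sections
-/

namespace Pool.Agent.H60.PF

open Pool.Agent.H76.F4 Pool.Agent.H15.XF Pool.Agent.H72.FB4
open scoped BigOperators

variable {r : ℕ}

/-- a pseudoeffective class and three nef classes -/
theorem Link.psef {X : Var r} {B : BCl r} (K : Link X B) (x : Vec r) (hx : X.num.Psef x)
    (a b c : B.V) (ha : B.Nef a) (hb : B.Nef b) (hc : B.Nef c) : 0 ≤ B.I (B.pb x) a b c := by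
  refine Num.nonneg_of_add (b := B.I (B.pb X.num.A) a b c) fun t ht => ?_
  rw [← BCl.I1_smul, ← BCl.I1_add, ← BCl.pb_smul, ← BCl.pb_add]
  obtain ⟨k, F, u, hu, e⟩ := hx t ht
  have h1 : B.pb (∑ i, u i • X.num.cl (F i)) = ∑ i, B.pb (u i • X.num.cl (F i)) :=
    map_sum (IsLinearMap.mk' _ B.pb_lin) _ _
  rw [e, h1, BCl.I1_sum]
  refine Finset.sum_nonneg fun i _ => ?_
  rw [BCl.pb_smul, BCl.I1_smul, ← K.cl]
  exact mul_nonneg (hu i) (B.prime _ (K.pr_X _) _ _ _ ha hb hc)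

section

variable {X : Var r} {B : BCl r} {L : X.P} (K : Link X B) {f : Vec r → Vec r → ℝ}
  (h : X.Divisors f)

include h in
theorem rl_line (D : X.Pr →₀ ℕ) : X.rl (X.line D) = ∑ G ∈ D.support, (D G : ℝ) • X.num.cl G := by
  classical
  induction D using Finsupp.induction with
  | zero => rw [Var.line_zero, h.rl_zero]; simp
  | single_add G k D hG hk ih =>
    rw [Var.line_add, h.rl_add, Var.line_single, h.rl_nsmul, ← h.cl_eq, ih,
      Finsupp.support_single_add hG hk, Finset.sum_cons]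
    congr 1
    · rw [Finsupp.add_apply, Finsupp.single_eq_same, Finsupp.notMem_support_iff.1 hG, add_zero]
    · refine Finset.sum_congr rfl fun G' hG' => ?_
      rw [Finsupp.add_apply, Finsupp.single_eq_of_ne, zero_add]
      rintro rfl
      exact hG hG'

include h in
/-- **Claim F, (i).** If no positive multiple of `L` has a section then the prime divisors `G` with
`L^2.G = 0` have a pencil. -/
theorem Pencils.exists_pencil (C : Pencils X B L) (T : Two B (X.rl L))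
    (hno : ∀ k : ℕ, 0 < k → X.h 0 (k • L) = 0) :
    Nonempty (Pencil X {G | lin B (B.pb (X.rl L)) (B.pb (X.rl L)) (B.pb B.A) (X.num.cl G) = 0}) := by
  refine ⟨C.pencil _ fun D hD hK => ?_⟩
  have h2 : lin B (B.pb (X.rl L)) (B.pb (X.rl L)) (B.pb B.A) (X.rl (X.line D)) = 0 := by
    rw [rl_line h, map_sum]
    refine Finset.sum_eq_zero fun G hG => ?_
    rw [map_smul, smul_eq_mul]
    exact mul_eq_zero_of_right _ (hD G hG)
  obtain ⟨k, hk, h3⟩ := (C.plane D hK).section T h2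
  exact h3 (hno k hk)

include K h

/-- **F1.** Differential forms with values in infinitely many multiples of `L`. -/
theorem Pencils.section_of_forms (C : Pencils X B L) (T : Two B (X.rl L))
    {Cu : Cur B (X.rl L)} (Fo : X.Forms Cu) (hs : ∀ N : ℕ, ∃ m, N < m ∧ ∃ p v, v ≠ 0 ∧ Fo.sec p m v) :
    ∃ m : ℕ, 0 < m ∧ X.h 0 (m • L) ≠ 0 := by
  by_contra hno
  push Not at hno
  obtain ⟨P⟩ := C.exists_pencil h T hno
  obtain ⟨m, hm, h1⟩ := Pool.Agent.H72.FB4.section_of_forms h Fo hs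
    (lin B (B.pb (X.rl L)) (B.pb (X.rl L)) (B.pb B.A))
    (fun G => by rw [← K.cl]; exact B.prime _ (K.pr_X G) _ _ _ T.nef T.nef B.nef_A)
    (fun Q hQ => K.psef Q hQ _ _ _ T.nef T.nef B.nef_A) (T.cube _) P
  exact h1 (hno m hm)

/-- Up to multiples there are finitely many classes of prime divisors `G` with `L^2.G = 0`. -/
theorem Pencils.finite (C : Pencils X B L) (T : Two B (X.rl L))
    (hno : ∀ k : ℕ, 0 < k → X.h 0 (k • L) = 0) :
    ∃ S₀ : Set B.D, S₀.Finite ∧ (∀ F ∈ S₀, B.X F) ∧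
      ∀ F, B.X F → B.I (B.pb (B.cl F)) (B.pb (X.rl L)) (B.pb (X.rl L)) (B.pb B.A) = 0 →
        ∃ F₀ ∈ S₀, ∃ c : ℝ, 0 < c ∧ B.cl F = c • B.cl F₀ := by
  obtain ⟨P⟩ := C.exists_pencil h T hno
  obtain ⟨S₀, h1, -, h2⟩ := P.finite h
  refine ⟨K.pr '' S₀, h1.image _, ?_, fun G hG h3 => ?_⟩
  · rintro _ ⟨G, _, rfl⟩
    exact K.pr_X G
  · obtain ⟨G, rfl⟩ := K.pr_onto G hG
    obtain ⟨F₀, h4, c, hc, e⟩ := h2 G (by rw [K.cl] at h3; exact h3)
    exact ⟨K.pr F₀, Set.mem_image_of_mem _ h4, c, hc, by rw [K.cl, K.cl, e]⟩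

/-- **StartD**, if no positive multiple of `L` has a section. -/
theorem Pencils.startD (P : Pencils X B L) (hno : ∀ k : ℕ, 0 < k → X.h 0 (k • L) = 0) :
    StartD B (X.rl L) := fun T _ => start T (P.finite K h T hno)

end

end Pool.Agent.H60.PF
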