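import Pool.Agent.H60.PF.Defs
import Pool.Agent.H76.F4.Non

/-!
# Divisors of Kodaira dimension at most one and pencils
-/

namespace Pool.Agent.H60.PF

open Pool.Agent.H76.F4
open scoped BigOperators

variable {r : ℕ}

/-- The rational functions whose divisors have support in `S`, if any two of them are algebraically
dependent: they are rational functions of one function `g`. `mem t` are the members of the pencil. If all
functions are constant then `B` is empty. -/
structure Pencil (X : Var r) (S : Set X.Pr) where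
  B : Type
  mem : B → X.Pr →₀ ℕ
  /-- the class of the members -/
  Φ : X.P
  line_mem : ∀ t, X.line (mem t) = Φ
  ne_zero : ∀ t, mem t ≠ 0
  /-- the general fibres are irreducible -/
  red : {t | ¬ ∃ F k, mem t = Finsupp.single F k}.Finite
  /-- The rational function with the divisor `D - D'` is a rational function of `g`. -/
  fn : ∀ D D' : X.Pr →₀ ℕ, (∀ F ∈ D.support, F ∈ S) → (∀ F ∈ D'.support, F ∈ S) →
    X.line D = X.line D' → ∃ c c' : B →₀ ℕ,
      D + c.sum (fun t k => k • mem t) = D' + c'.sum (fun t k => k • mem t)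

attribute [instance] Functions.fld Functions.alg

namespace Functions

variable {X : Var r} (Φ : Functions X)

/-- the order of a function along a prime divisor -/
def ord : X.Pr → Φ.K → ℤ := Φ.fn.ord

theorem ord_mul (F : X.Pr) (f g : Φ.K) (hf : f ≠ 0) (hg : g ≠ 0) :
    Φ.ord F (f * g) = Φ.ord F f + Φ.ord F g := (Φ.fn.val F f g (mul_ne_zero hf hg)).1

theorem ord_add (F : X.Pr) (f g : Φ.K) (hf : f ≠ 0) (hg : g ≠ 0) (h : f + g ≠ 0) :
    min (Φ.ord F f) (Φ.ord F g) ≤ Φ.ord F (f + g) := (Φ.fn.val F f g (mul_ne_zero hf hg)).2 h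

theorem finite (f : Φ.K) (_ : f ≠ 0) : {F | Φ.ord F f ≠ 0}.Finite := Φ.fn.finite f

theorem sect (D : X.Pr →₀ ℕ) (k : ℕ) (f : Fin k → Φ.K) (h : LinearIndependent ℂ f)
    (hD : ∀ i F, 0 ≤ Φ.ord F (f i) + D F) : k ≤ X.h 0 (X.line D) := Φ.fn.sect D k f h hD

theorem ord_one (F : X.Pr) : Φ.ord F 1 = 0 := by
  have := Φ.ord_mul F 1 1 one_ne_zero one_ne_zero
  rw [mul_one] at this
  omega

/-- linear equivalence -/
theorem equiv (D D' : X.Pr →₀ ℕ) :
    X.line D = X.line D' ↔ ∃ f, f ≠ 0 ∧ ∀ F, (D F : ℤ) = D' F + Φ.ord F f := by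
  refine (Φ.fn.equiv D D').trans ⟨fun ⟨f, hf⟩ => ?_, fun ⟨f, _, hf⟩ => ⟨f, hf⟩⟩
  by_cases h : f = 0
  · refine ⟨1, one_ne_zero, fun F => ?_⟩
    rw [ord_one, hf F, h, Φ.fn.zero]
  · exact ⟨f, h, hf⟩

theorem curve (f : Φ.K) (hf : ∀ c : ℂ, algebraMap ℂ Φ.K c ≠ f) : ∃ g : Φ.K,
    (∀ u, ¬ AlgebraicIndependent ℂ ![f, u] → u ∈ IntermediateField.adjoin ℂ {g}) ∧
    {t : ℂ | ¬ ∃ F, ∀ G, G ≠ F → Φ.ord G (g - algebraMap ℂ Φ.K t) ≤ 0}.Finite := Φ.fn.curve f hf

theorem ord_pow (F : X.Pr) (f : Φ.K) (hf : f ≠ 0) : ∀ n : ℕ, Φ.ord F (f ^ n) = n * Φ.ord F f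
  | 0 => by rw [pow_zero, ord_one, Nat.cast_zero, zero_mul]
  | n + 1 => by
    rw [pow_succ, Φ.ord_mul F _ _ (pow_ne_zero n hf) hf, ord_pow F f hf n]
    push_cast
    ring

/-- The group `ℂ^*` is divisible, so the constants have order zero. -/
theorem ord_cst (F : X.Pr) (c : ℂ) (hc : c ≠ 0) : Φ.ord F (algebraMap ℂ Φ.K c) = 0 := by
  by_contra h
  set n := (Φ.ord F (algebraMap ℂ Φ.K c)).natAbs + 1 with hn
  obtain ⟨d, hd⟩ := IsAlgClosed.exists_pow_nat_eq c (n := n) (by omega)
  have hd0 : algebraMap ℂ Φ.K d ≠ 0 := by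
    rw [Ne, map_eq_zero]
    rintro rfl
    rw [zero_pow (by omega)] at hd
    exact hc hd.symm
  have h1 : Φ.ord F (algebraMap ℂ Φ.K c) = n * Φ.ord F (algebraMap ℂ Φ.K d) := by
    rw [← hd, map_pow, Φ.ord_pow F _ hd0]
  have h2 : (n : ℤ) ∣ Φ.ord F (algebraMap ℂ Φ.K c) := ⟨_, h1⟩
  have h3 := Int.le_of_dvd (by positivity) ((dvd_abs _ _).2 h2)
  have h4 : (n : ℤ) = |Φ.ord F (algebraMap ℂ Φ.K c)| + 1 := by
    rw [hn]
    push_cast
    rfl
  omega

/-- A function without poles is constant: otherwise its powers would be linearly independent sections of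
`O_X`. -/
theorem cst (f : Φ.K) (hf : f ≠ 0) (h : ∀ F, 0 ≤ Φ.ord F f) : ∃ c : ℂ, algebraMap ℂ Φ.K c = f := by
  by_cases ha : IsAlgebraic ℂ f
  · obtain ⟨p, hp0, hp⟩ := ha
    rw [(IsAlgClosed.splits p).eq_prod_roots, map_mul, Polynomial.aeval_C, map_multiset_prod,
      Multiset.map_map, mul_eq_zero, map_eq_zero, Polynomial.leadingCoeff_eq_zero] at hp
    obtain ⟨a, -, ha⟩ := Multiset.mem_map.1 (Multiset.prod_eq_zero_iff.1 (hp.resolve_left hp0))
    refine ⟨a, ?_⟩
    simp only [Function.comp_apply, map_sub, Polynomial.aeval_X, Polynomial.aeval_C] at ha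
    exact (sub_eq_zero.1 ha).symm
  · have hli : LinearIndependent ℂ fun i : ℕ => f ^ i := by
      have h1 : Function.Injective (Polynomial.aeval f : Polynomial ℂ →ₐ[ℂ] Φ.K) :=
        transcendental_iff_injective.1 ha
      have h2 := (Polynomial.basisMonomials ℂ).linearIndependent.map'
        (Polynomial.aeval f : Polynomial ℂ →ₐ[ℂ] Φ.K).toLinearMap (by
          rw [LinearMap.ker_eq_bot]
          exact h1)
      simpa [Function.comp_def] using h2
    have h3 := Φ.sect 0 (X.h 0 (X.line 0) + 1) (fun i => f ^ (i : ℕ))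
      (hli.comp _ Fin.val_injective) fun i F => by
        rw [Φ.ord_pow F f hf]
        simpa using mul_nonneg (Nat.cast_nonneg _) (h F)
    omega

theorem ord_inv (F : X.Pr) (f : Φ.K) (hf : f ≠ 0) : Φ.ord F f⁻¹ = -Φ.ord F f := by
  have h := Φ.ord_mul F f f⁻¹ hf (inv_ne_zero hf)
  rw [mul_inv_cancel₀ hf, ord_one] at h
  omega

theorem ord_neg (F : X.Pr) (f : Φ.K) (hf : f ≠ 0) : Φ.ord F (-f) = Φ.ord F f := by
  have h := Φ.ord_cst F (-1) (by norm_num)
  have e : algebraMap ℂ Φ.K (-1) = -1 := by rw [map_neg, map_one]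
  rw [e] at h
  have h1 := Φ.ord_mul F (-1) f (by simp) hf
  rw [h, zero_add] at h1
  rw [← h1]
  congr 1
  ring

/-- the divisor of the poles -/
noncomputable def pole (f : Φ.K) (hf : f ≠ 0) : X.Pr →₀ ℕ :=
  Finsupp.ofSupportFinite (fun F => (-(Φ.ord F f)).toNat)
    ((Φ.finite f hf).subset fun F hF => by
      intro h
      exact hF (by simp [h]))

theorem pole_apply (f : Φ.K) (hf : f ≠ 0) (F : X.Pr) : Φ.pole f hf F = (-(Φ.ord F f)).toNat := rfl

/-- the divisor of the zeros -/
noncomputable def zer (f : Φ.K) (hf : f ≠ 0) : X.Pr →₀ ℕ :=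
  Finsupp.ofSupportFinite (fun F => (Φ.ord F f).toNat)
    ((Φ.finite f hf).subset fun F hF => by
      intro h
      exact hF (by simp [h]))

theorem zer_apply (f : Φ.K) (hf : f ≠ 0) (F : X.Pr) : Φ.zer f hf F = (Φ.ord F f).toNat := rfl

/-- Two functions with divisors in `S` are algebraically dependent. -/
theorem dep {S : Set X.Pr} (hS : ∀ D : X.Pr →₀ ℕ, (∀ F ∈ D.support, F ∈ S) → ¬ Kod X D)
    (f u : Φ.K) (hf : f ≠ 0) (hu : u ≠ 0) (hfS : ∀ F, Φ.ord F f ≠ 0 → F ∈ S)
    (huS : ∀ F, Φ.ord F u ≠ 0 → F ∈ S) : ¬ AlgebraicIndependent ℂ ![f, u] := by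
  classical
  intro hind
  set D : X.Pr →₀ ℕ := Φ.pole f hf + Φ.pole u hu with hD
  refine hS D (fun F hF => ?_) ⟨1, one_pos, fun m => ?_⟩
  · by_contra hFS
    have h1 : Φ.ord F f = 0 := by
      by_contra h
      exact hFS (hfS F h)
    have h2 : Φ.ord F u = 0 := by
      by_contra h
      exact hFS (huS F h)
    rw [Finsupp.mem_support_iff, hD, Finsupp.add_apply, pole_apply, pole_apply, h1, h2] at hF
    exact hF rfl
  · rw [mul_one, ← Var.line_nsmul]
    let T : Finset (Σ _ : ℕ, ℕ) := (Finset.range (m + 1)).sigma fun i => Finset.range (i + 1)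
    have hT : 2 * T.card = (m + 1) * (m + 2) := by
      rw [Finset.card_sigma]
      simp only [Finset.card_range]
      have h := Finset.sum_range_id_mul_two (m + 1 + 1)
      rw [Finset.sum_range_succ'] at h
      simp only [add_zero, Nat.add_sub_cancel] at h
      rw [mul_comm, h]
      ring
    -- the monomials
    let s : T → (Fin 2 →₀ ℕ) := fun p =>
      Finsupp.single 0 p.1.2 + Finsupp.single 1 (p.1.1 - p.1.2)
    have hs : Function.Injective s := by
      rintro ⟨⟨i, j⟩, hp⟩ ⟨⟨i', j'⟩, hp'⟩ h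
      have h0 := DFunLike.congr_fun h 0
      have h1 := DFunLike.congr_fun h 1
      simp only [s, Finsupp.add_apply, Finsupp.single_apply] at h0 h1
      simp only [T, Finset.mem_sigma, Finset.mem_range] at hp hp'
      simp at h0 h1
      have : i = i' := by omega
      subst this
      subst h0
      rfl
    have hli : LinearIndependent ℂ fun p : T => MvPolynomial.aeval ![f, u]
        (MvPolynomial.monomial (s p) (1 : ℂ)) := by
      have h1 := (MvPolynomial.basisMonomials (Fin 2) ℂ).linearIndependent.map'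
        (MvPolynomial.aeval ![f, u]).toLinearMap (by
          rw [LinearMap.ker_eq_bot]
          exact hind)
      have h2 := h1.comp s hs
      simpa [Function.comp_def] using h2
    have hval : ∀ p : T, MvPolynomial.aeval ![f, u] (MvPolynomial.monomial (s p) (1 : ℂ)) =
        f ^ p.1.2 * u ^ (p.1.1 - p.1.2) := by
      intro p
      rw [MvPolynomial.aeval_monomial, map_one, one_mul, Finsupp.prod_fintype _ _ (by simp)]
      simp [s, Fin.prod_univ_two]
    have h := Φ.sect (m • D) T.card (fun i => f ^ (T.equivFin.symm i).1.2 *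
      u ^ ((T.equivFin.symm i).1.1 - (T.equivFin.symm i).1.2)) (by
        have h1 := hli.comp T.equivFin.symm T.equivFin.symm.injective
        simp only [Function.comp_def, hval] at h1
        exact h1) (fun i F => by
        obtain ⟨⟨i, j⟩, hp⟩ := T.equivFin.symm i
        simp only [T, Finset.mem_sigma, Finset.mem_range] at hp
        dsimp only
        rw [Φ.ord_mul F _ _ (pow_ne_zero _ hf) (pow_ne_zero _ hu), Φ.ord_pow F f hf,
          Φ.ord_pow F u hu, Finsupp.smul_apply, hD, Finsupp.add_apply, pole_apply, pole_apply]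
        have h3 : ((-(Φ.ord F f)).toNat : ℤ) = max (-(Φ.ord F f)) 0 := Int.toNat_eq_max _
        have h4 : ((-(Φ.ord F u)).toNat : ℤ) = max (-(Φ.ord F u)) 0 := Int.toNat_eq_max _
        rw [smul_eq_mul]
        push_cast
        rw [h3, h4]
        have h5 : -(j : ℤ) * max (-(Φ.ord F f)) 0 ≤ j * Φ.ord F f := by
          have := le_max_left (-(Φ.ord F f)) 0
          nlinarith
        have h6 : -((i - j : ℕ) : ℤ) * max (-(Φ.ord F u)) 0 ≤ ((i - j : ℕ) : ℤ) * Φ.ord F u := by
          have := le_max_left (-(Φ.ord F u)) 0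
          nlinarith
        have h7 : (j : ℤ) * max (-(Φ.ord F f)) 0 ≤ m * max (-(Φ.ord F f)) 0 := by
          have h8 : (j : ℤ) ≤ m := by omega
          exact mul_le_mul_of_nonneg_right h8 (le_max_right _ _)
        have h9 : ((i - j : ℕ) : ℤ) * max (-(Φ.ord F u)) 0 ≤ m * max (-(Φ.ord F u)) 0 := by
          have h8 : ((i - j : ℕ) : ℤ) ≤ m := by omega
          exact mul_le_mul_of_nonneg_right h8 (le_max_right _ _)
        nlinarith)
    rw [← hT]
    exact Nat.mul_le_mul_left 2 h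

section

variable {g : Φ.K} (hg : ∀ c : ℂ, algebraMap ℂ Φ.K c ≠ g)

include hg in
theorem sub_ne (t : ℂ) : g - algebraMap ℂ Φ.K t ≠ 0 := fun h => hg t (sub_eq_zero.1 h).symm

include hg in
theorem ne_zero_of : g ≠ 0 := fun h => hg 0 (by rw [map_zero, h])

include hg in
/-- the poles of `g - t` are the poles of `g` -/
theorem pole_sub (t : ℂ) (F : X.Pr) :
    (-(Φ.ord F (g - algebraMap ℂ Φ.K t))).toNat = (-(Φ.ord F g)).toNat := by
  by_cases ht : t = 0
  · rw [ht, map_zero, sub_zero]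
  · have hc : algebraMap ℂ Φ.K t ≠ 0 := by
      rw [Ne, map_eq_zero]
      exact ht
    have h0 := Φ.ord_cst F t ht
    have h1 := Φ.ord_add F (g - algebraMap ℂ Φ.K t) (algebraMap ℂ Φ.K t) (Φ.sub_ne hg t) hc
      (by rw [sub_add_cancel]; exact Φ.ne_zero_of hg)
    have h2 := Φ.ord_add F g (-algebraMap ℂ Φ.K t) (Φ.ne_zero_of hg) (neg_ne_zero.2 hc)
      (by rw [← sub_eq_add_neg]; exact Φ.sub_ne hg t)
    rw [sub_add_cancel, h0] at h1
    rw [Φ.ord_neg F _ hc, h0, ← sub_eq_add_neg] at h2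
    omega

/-- the members of the pencil -/
noncomputable def mem : Option ℂ → X.Pr →₀ ℕ
  | none => Φ.pole g (Φ.ne_zero_of hg)
  | some t => Φ.zer (g - algebraMap ℂ Φ.K t) (Φ.sub_ne hg t)

theorem mem_sub (t : ℂ) (F : X.Pr) :
    (Φ.mem hg (some t) F : ℤ) = Φ.mem hg none F + Φ.ord F (g - algebraMap ℂ Φ.K t) := by
  change ((Φ.ord F (g - algebraMap ℂ Φ.K t)).toNat : ℤ) = ((-(Φ.ord F g)).toNat : ℤ) + _
  rw [← Φ.pole_sub hg t F]
  omega

theorem mem_ne_zero (t : Option ℂ) : Φ.mem hg t ≠ 0 := by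
  intro h
  rcases t with _ | t
  · obtain ⟨c, hc⟩ := Φ.cst g (Φ.ne_zero_of hg) fun F => by
      have h1 : (-(Φ.ord F g)).toNat = 0 := DFunLike.congr_fun h F
      omega
    exact hg c hc
  · have hne := Φ.sub_ne hg t
    obtain ⟨c, hc⟩ := Φ.cst (g - algebraMap ℂ Φ.K t)⁻¹ (inv_ne_zero hne) fun F => by
      have h1 : (Φ.ord F (g - algebraMap ℂ Φ.K t)).toNat = 0 := DFunLike.congr_fun h F
      rw [Φ.ord_inv F _ hne]
      omega
    refine hg (t + c⁻¹) ?_
    rw [map_add, map_inv₀, hc, inv_inv]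
    ring

theorem ord_prod (F : X.Pr) (M : Multiset ℂ) :
    Φ.ord F (M.map fun a => g - algebraMap ℂ Φ.K a).prod =
      (M.map fun a => (Φ.mem hg (some a) F : ℤ)).sum - Multiset.card M * Φ.mem hg none F := by
  have hne : ∀ M : Multiset ℂ, (M.map fun a => g - algebraMap ℂ Φ.K a).prod ≠ 0 := by
    intro M h
    rw [Multiset.prod_eq_zero_iff, Multiset.mem_map] at h
    obtain ⟨a, -, ha⟩ := h
    exact Φ.sub_ne hg a ha
  induction M using Multiset.induction_on with
  | empty => simp [ord_one]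
  | cons a M ih =>
    rw [Multiset.map_cons, Multiset.prod_cons, Φ.ord_mul F _ _ (Φ.sub_ne hg a) (hne M), ih,
      Multiset.map_cons, Multiset.sum_cons, Multiset.card_cons, Φ.mem_sub hg a F]
    push_cast
    ring

theorem ord_aeval (F : X.Pr) (p : Polynomial ℂ) (hp : Polynomial.aeval g p ≠ 0) :
    Φ.ord F (Polynomial.aeval g p) =
      (p.roots.map fun a => (Φ.mem hg (some a) F : ℤ)).sum -
        Multiset.card p.roots * Φ.mem hg none F := by
  have hp0 : p ≠ 0 := by
    rintro rfl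
    exact hp (map_zero _)
  have e : Polynomial.aeval g p = algebraMap ℂ Φ.K p.leadingCoeff *
      (p.roots.map fun a => g - algebraMap ℂ Φ.K a).prod := by
    conv_lhs => rw [(IsAlgClosed.splits p).eq_prod_roots]
    rw [map_mul, Polynomial.aeval_C, map_multiset_prod, Multiset.map_map]
    congr 3
    funext a
    simp
  have hl : p.leadingCoeff ≠ 0 := Polynomial.leadingCoeff_ne_zero.2 hp0
  rw [e, Φ.ord_mul F _ _ (by rwa [Ne, map_eq_zero]) (by
    rw [e] at hp
    exact right_ne_zero_of_mul hp), Φ.ord_cst F _ hl, zero_add, Φ.ord_prod hg]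

end

theorem exists_sum {B : Type} {A : Type} [AddCommMonoid A] (mem : B → A) (M : Multiset B) :
    ∃ c : B →₀ ℕ, c.sum (fun t k => k • mem t) = (M.map mem).sum := by
  classical
  induction M using Multiset.induction_on with
  | empty => exact ⟨0, by simp⟩
  | cons a M ih =>
    obtain ⟨c, hc⟩ := ih
    refine ⟨Finsupp.single a 1 + c, ?_⟩
    rw [Finsupp.sum_add_index' (h := fun t k => k • mem t) (fun _ => zero_smul _ _)
      (fun _ _ _ => add_smul _ _ _), hc, Finsupp.sum_single_index (h := fun t k => k • mem t) (zero_smul _ _), one_smul,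
      Multiset.map_cons, Multiset.sum_cons]

theorem sum_apply {B : Type} (mem : B → X.Pr →₀ ℕ) (M : Multiset B) (F : X.Pr) :
    (((M.map mem).sum F : ℕ) : ℤ) = (M.map fun t => (mem t F : ℤ)).sum := by
  induction M using Multiset.induction_on with
  | empty => simp
  | cons a M ih => simp [Multiset.map_cons, Multiset.sum_cons, ih]

include Φ in
/-- **Theorem.** If the divisors with support in `S` have Kodaira dimension at most one then they form a
pencil. -/
theorem exists_pencil {S : Set X.Pr}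
    (hS : ∀ D : X.Pr →₀ ℕ, (∀ F ∈ D.support, F ∈ S) → ¬ Kod X D) : Nonempty (Pencil X S) := by
  classical
  have hsupp : ∀ (D D' : X.Pr →₀ ℕ) (f : Φ.K), (∀ F ∈ D.support, F ∈ S) →
      (∀ F ∈ D'.support, F ∈ S) → (∀ F, (D F : ℤ) = D' F + Φ.ord F f) →
      ∀ F, Φ.ord F f ≠ 0 → F ∈ S := by
    intro D D' f hD hD' h F hF
    by_cases h1 : D F = 0
    · refine hD' F (Finsupp.mem_support_iff.2 fun h2 => hF ?_)
      have := h F
      rw [h1, h2] at this
      simpa using this.symm
    · exact hD F (Finsupp.mem_support_iff.2 h1)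
  by_cases hall : ∀ f : Φ.K, f ≠ 0 → (∀ F, Φ.ord F f ≠ 0 → F ∈ S) →
      ∃ c : ℂ, algebraMap ℂ Φ.K c = f
  · refine ⟨{ B := Empty, mem := Empty.elim, Φ := 0, line_mem := fun t => t.elim,
              ne_zero := fun t => t.elim, red := Set.toFinite _, fn := ?_ }⟩
    intro D D' hD hD' h
    obtain ⟨f, hf, hDf⟩ := (Φ.equiv D D').1 h
    obtain ⟨c, rfl⟩ := hall f hf (hsupp D D' f hD hD' hDf)
    refine ⟨0, 0, ?_⟩
    rw [Finsupp.sum_zero_index, add_zero, add_zero]
    ext F
    have h1 := hDf F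
    rw [Φ.ord_cst F c (by rintro rfl; exact hf (map_zero _)), add_zero] at h1
    exact_mod_cast h1
  · push Not at hall
    obtain ⟨f₀, hf₀, hfS, hcst⟩ := hall
    obtain ⟨g, hg1, hg2⟩ := Φ.curve f₀ hcst
    have hg : ∀ c : ℂ, algebraMap ℂ Φ.K c ≠ g := by
      rintro c rfl
      have h1 := hg1 f₀ (Φ.dep hS f₀ f₀ hf₀ hf₀ hfS hfS)
      have h2 : IntermediateField.adjoin ℂ {algebraMap ℂ Φ.K c} ≤ ⊥ := by
        rw [IntermediateField.adjoin_le_iff, Set.singleton_subset_iff]
        exact algebraMap_mem _ c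
      obtain ⟨d, hd⟩ := IntermediateField.mem_bot.1 (h2 h1)
      exact hcst d hd
    refine ⟨{ B := Option ℂ, mem := Φ.mem hg, Φ := X.line (Φ.mem hg none), line_mem := ?_,
              ne_zero := Φ.mem_ne_zero hg, red := ?_, fn := ?_ }⟩
    · rintro (_ | t)
      · rfl
      · exact (Φ.equiv _ _).2 ⟨_, Φ.sub_ne hg t, Φ.mem_sub hg t⟩
    · refine ((Set.finite_singleton none).union (hg2.image some)).subset ?_
      rintro (_ | t) ht
      · exact Or.inl rfl
      · refine Or.inr ⟨t, fun ⟨F, hF⟩ => ht ⟨F, (Φ.ord F (g - algebraMap ℂ Φ.K t)).toNat, ?_⟩, rfl⟩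
        ext G
        change (Φ.ord G (g - algebraMap ℂ Φ.K t)).toNat = _
        by_cases h : G = F
        · rw [h, Finsupp.single_eq_same]
        · rw [Finsupp.single_eq_of_ne h]
          have := hF G h
          omega
    · intro D D' hD hD' h
      obtain ⟨f, hf, hDf⟩ := (Φ.equiv D D').1 h
      have h1 := hg1 f (Φ.dep hS f₀ f hf₀ hf hfS (hsupp D D' f hD hD' hDf))
      obtain ⟨p, q, rfl⟩ := (IntermediateField.mem_adjoin_simple_iff _ _).1 h1
      have hp : Polynomial.aeval g p ≠ 0 := fun h => hf (by rw [h, zero_div])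
      have hq : Polynomial.aeval g q ≠ 0 := fun h => hf (by rw [h, div_zero])
      obtain ⟨c, hc⟩ := exists_sum (Φ.mem hg)
        (q.roots.map some + Multiset.replicate (Multiset.card p.roots) none)
      obtain ⟨c', hc'⟩ := exists_sum (Φ.mem hg)
        (p.roots.map some + Multiset.replicate (Multiset.card q.roots) none)
      refine ⟨c, c', ?_⟩
      rw [hc, hc']
      ext F
      have h2 := hDf F
      rw [div_eq_mul_inv, Φ.ord_mul F _ _ hp (inv_ne_zero hq), Φ.ord_inv F _ hq,
        Φ.ord_aeval hg F p hp, Φ.ord_aeval hg F q hq] at h2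
      have h3 : ((D F + ((q.roots.map some + Multiset.replicate (Multiset.card p.roots) none).map
          (Φ.mem hg)).sum F : ℕ) : ℤ) = ((D' F + ((p.roots.map some +
          Multiset.replicate (Multiset.card q.roots) none).map (Φ.mem hg)).sum F : ℕ) : ℤ) := by
        push_cast
        rw [sum_apply, sum_apply, h2]
        simp only [Multiset.map_add, Multiset.map_map, Function.comp_def, Multiset.sum_add,
          Multiset.map_replicate, Multiset.sum_replicate, nsmul_eq_mul]
        ring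
      exact_mod_cast h3

end Functions

/-- the pencil of the divisors with support in `S` -/
noncomputable def Pencils.pencil {X : Var r} {B : Pool.Agent.H15.XF.BCl r} {L : X.P} (C : Pencils X B L)
    (S : Set X.Pr) (hS : ∀ D : X.Pr →₀ ℕ, (∀ F ∈ D.support, F ∈ S) → ¬ Kod X D) : Pencil X S :=
  (C.fns.exists_pencil hS).some

end Pool.Agent.H60.PF
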