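import Pool.Agent.H15.XF.Lin
import Pool.Agent.H60.PF.Cone
import Pool.Agent.H72.FB4.Cls

/-!
# Divisors orthogonal to the square of a nef class have Kodaira dimension at most one

`X` is a smooth projective fourfold with `H^1(X, O_X) = 0`, and `L` is nef, `L^3 = 0`, `L^2 ≠ 0`. If there is
such a divisor of Kodaira dimension at least two then a multiple of `L` has a section.
-/

namespace Pool.Agent.H60.PF

open Pool.Agent.H76.F4 Pool.Agent.H15.XF Pool.Agent.H72.FB4
open scoped BigOperators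

variable {r : ℕ}

/-- the b-classes -/
def toCls (B : BCl r) : Cls where
  V := B.V
  I := B.I
  Nef := {v | B.Nef v}
  add x y a b c := BCl.I1_add x y a b c
  smul t x a b c := BCl.I1_smul t x a b c
  swap := B.symm12
  swap' := B.symm23
  swap'' := B.symm34
  nef_add a ha b hb := B.nef_add a b ha hb
  nef_smul a ha t ht := B.nef_smul t a ht ha
  nonneg a ha b hb c hc d hd := B.nonneg a b c d ha hb hc hd
  span x := by
    obtain ⟨a, b, ha, hb, e⟩ := B.gen x
    exact ⟨a, ha, b, hb, e⟩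
  hodge a ha b hb h _ x h1 h2 := B.index a b x h ha hb h1 (by rw [B.symm12]; exact h2)

theorem Plane.nef {X : Var r} {B : BCl r} {L : X.P} {D : X.Pr →₀ ℕ} (P : Plane X B L D) :
    B.Nef P.b := P.good.1

/-- the pull back of `m D` is the sum of `b` and of an effective divisor -/
theorem Plane.le {X : Var r} {B : BCl r} {L : X.P} {D : X.Pr →₀ ℕ} (P : Plane X B L D)
    (x y z : B.V) (hx : B.Nef x) (hy : B.Nef y) (hz : B.Nef z) :
    B.I P.b x y z ≤ P.m * B.I (B.pb (X.rl (X.line D))) x y z := by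
  have h1 := B.eff (B.pb ((P.m : ℝ) • X.rl (X.line D)) - P.b) (by
      rw [BCl.tr_sub, B.tr_pb, P.good.2.1, sub_self]) (fun E => by
      rw [BCl.o_sub, BCl.o_pb']
      linarith [P.good.2.2 E]) x y z hx hy hz
  rw [BCl.I1_sub, BCl.pb_smul, BCl.I1_smul] at h1
  linarith

/-- the nef class `L` is numerically trivial on the general fibres of a map to a surface if `b^2.L.A = 0`,
by the Hodge index theorem -/
theorem Plane.zero {X : Var r} {B : BCl r} {L : X.P} {D : X.Pr →₀ ℕ} (P : Plane X B L D)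
    (hL : B.Nef (B.pb (X.rl L))) (h : B.I P.b P.b (B.pb (X.rl L)) (B.pb B.A) = 0) (x : B.V) :
    B.I (B.pb (X.rl L)) x P.b P.b = 0 := by
  have hrot : ∀ y z : B.V, B.I P.b P.b y z = B.I y z P.b P.b := fun y z => by
    rw [B.symm23, B.symm12, B.symm34, B.symm23]
  by_contra hne
  have h1 := B.strict_aux P.b P.b P.nef P.nef (B.pb (X.rl L)) x (B.pb B.A)
    (by rw [← hrot]; exact P.pos) (by rw [← hrot]; exact h) hne
  exact absurd (B.nonneg _ _ _ _ hL hL P.nef P.nef) (not_le.2 h1)

theorem Plane.section {X : Var r} {B : BCl r} {L : X.P} (T : Two B (X.rl L))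
    {D : X.Pr →₀ ℕ} (P : Plane X B L D)
    (h0 : B.I (B.pb (X.rl (X.line D))) (B.pb (X.rl L)) (B.pb (X.rl L)) (B.pb B.A) = 0) :
    ∃ k : ℕ, 0 < k ∧ X.h 0 (k • L) ≠ 0 := by
  set l := B.pb (X.rl L) with hl
  set a := B.pb B.A with ha
  have hb := P.nef
  set b := P.b with hbd
  have h1 : B.I b l l a = 0 := by
    refine le_antisymm ?_ (B.nonneg b l l a hb T.nef T.nef B.nef_A)
    have h6 := P.le l l a T.nef T.nef B.nef_A
    rwa [h0, mul_zero] at h6
  -- the form `x.y.L.A`
  have F1 := (toCls B).lor (a := l) (b := a) T.nef B.nef_A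
  have h2 : B.I l b l a = 0 := by rw [B.symm12]; exact h1
  have h3 : 0 < B.I l a l a := by rw [B.symm23]; exact T.pos
  obtain ⟨h4, -⟩ := F1.isotropic (l := l) (m := b) (a := a) T.nef hb B.nef_A (T.cube a) h2 h3
  change B.I b b l a = 0 at h4
  -- `b.L` is not zero
  have h5 : 0 < B.I b l a a := by
    refine lt_of_le_of_ne (B.nonneg b l a a hb T.nef B.nef_A B.nef_A) fun h5 => ?_
    have h6 := B.index a a b l B.nef_A B.nef_A T.pos h5.symm
    exact absurd P.pos (not_lt.2 h6)
  -- the form `x.y.b.A`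
  have F2 := (toCls B).lor (a := b) (b := a) hb B.nef_A
  have h6 : B.I l l b a = 0 := by rw [B.symm23, B.symm12]; exact h1
  have h7 : B.I l b b a = 0 := by rw [B.symm12, B.symm23]; exact h4
  have h8 : 0 < B.I l a b a := by rw [B.symm23, B.symm12]; exact h5
  obtain ⟨h9, -⟩ := F2.isotropic (l := l) (m := b) (a := a) T.nef hb B.nef_A h6 h7 h8
  -- `L` comes from a surface
  exact P.fib h9 (P.zero T.nef h4) T.pos.ne'

end Pool.Agent.H60.PF
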